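import Pool.Agent.helper91.MM.SpecA

set_option autoImplicit false

/-!
# MM: row MGR, continuous images of closed subsets in the Cantor space are meager
-/

namespace Pool.Agent.MM

open Pool.Agent.Scheepers Filter Topology

/-- the points of the cylinder of `l`, continued by `i` times `false` and then `true` -/
def MGR_W (l : List Bool) (i : ℕ) : Set (ℕ → Bool) :=
  {y | (∀ e < l.length, y e = l.getD e false) ∧ (∀ e < i, y (l.length + e) = false) ∧
    y (l.length + i) = true}

theorem MGR_supp (l : List Bool) (i : ℕ) : Supp (l.length + i + 1) (MGR_W l i) := by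
  rintro u w h ⟨h1, h2, h3⟩
  refine ⟨fun e he => ?_, fun e he => ?_, ?_⟩
  · rw [← h e (by omega)]
    exact h1 e he
  · rw [← h (l.length + e) (by omega)]
    exact h2 e he
  · rw [← h (l.length + i) (by omega)]
    exact h3

theorem MGR_clopen (l : List Bool) (i : ℕ) : IsClopen (MGR_W l i) :=
  ⟨(MGR_supp l i).isClosed, (MGR_supp l i).isOpen⟩

theorem MGR_disj (l : List Bool) (i j : ℕ) (y : ℕ → Bool) (hi : y ∈ MGR_W l i)
    (hij : i < j) : y ∉ MGR_W l j := by
  rintro ⟨_, h2, _⟩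
  have h3 := h2 i hij
  rw [hi.2.2] at h3
  exact Bool.noConfusion h3

/-- the indicator functions -/
noncomputable def MGR_f {X : Type} [TopologicalSpace X] (φ : X → (ℕ → Bool)) (hφ : Continuous φ)
    (l : List Bool) (i : ℕ) : C(X, ℝ) :=
  ⟨LocallyConstant.charFn ℝ ((MGR_clopen l i).preimage hφ),
    (LocallyConstant.charFn ℝ ((MGR_clopen l i).preimage hφ)).continuous⟩

theorem MGR_f_pos {X : Type} [TopologicalSpace X] (φ : X → (ℕ → Bool)) (hφ : Continuous φ)
    (l : List Bool) (i : ℕ) (x : X) (h : φ x ∈ MGR_W l i) : MGR_f φ hφ l i x = 1 :=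
  (LocallyConstant.charFn_eq_one (Y := ℝ) x ((MGR_clopen l i).preimage hφ)).2 h

theorem MGR_f_neg {X : Type} [TopologicalSpace X] (φ : X → (ℕ → Bool)) (hφ : Continuous φ)
    (l : List Bool) (i : ℕ) (x : X) (h : φ x ∉ MGR_W l i) : MGR_f φ hφ l i x = 0 :=
  (LocallyConstant.charFn_eq_zero (Y := ℝ) x ((MGR_clopen l i).preimage hφ)).2 h

theorem MGR_tendsto {X : Type} [TopologicalSpace X] (φ : X → (ℕ → Bool)) (hφ : Continuous φ)
    (l : List Bool) (x : X) : Tendsto (fun i => MGR_f φ hφ l i x) atTop (𝓝 0) := by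
  have h1 : ∃ i₀, ∀ i ≥ i₀, MGR_f φ hφ l i x = 0 := by
    by_cases h : ∃ i, φ x ∈ MGR_W l i
    · obtain ⟨i, hi⟩ := h
      exact ⟨i + 1, fun j hj => MGR_f_neg φ hφ l j x (MGR_disj l i j _ hi (by omega))⟩
    · exact ⟨0, fun j _ => MGR_f_neg φ hφ l j x fun hj => h ⟨j, hj⟩⟩
  obtain ⟨i₀, hi₀⟩ := h1
  refine tendsto_const_nhds.congr' ?_
  filter_upwards [eventually_ge_atTop i₀] with i hi
  exact (hi₀ i hi).symm

/-- MGR -/
theorem MGR (h1 : SEC_stmt) : MGR_stmt := by
  intro E _ hE C hC φ hφ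
  obtain ⟨c, hc⟩ := exists_surjective_nat (List Bool)
  obtain ⟨κ, hκ⟩ := h1 E hE C hC (fun n i => MGR_f φ hφ (c (Nat.unpair n).1) i)
    (fun n i x => by
      by_cases h : φ x ∈ MGR_W (c (Nat.unpair n).1) i
      · rw [MGR_f_pos φ hφ _ i x h]
        simp
      · rw [MGR_f_neg φ hφ _ i x h]
        simp) (fun n x => MGR_tendsto φ hφ _ x)
  have hsub : Set.range φ ⊆ ⋃ m : ℕ, {y | ∀ n, m ≤ n → y ∉ MGR_W (c (Nat.unpair n).1) (κ n)} := by
    rintro _ ⟨x, rfl⟩
    have h2 := (hκ x).eventually (gt_mem_nhds (show (0 : ℝ) < 1 by norm_num))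
    obtain ⟨m, hm⟩ := eventually_atTop.1 h2
    refine Set.mem_iUnion.2 ⟨m, fun n hn hmem => ?_⟩
    have h3 := hm n hn
    rw [MGR_f_pos φ hφ _ (κ n) x hmem] at h3
    exact lt_irrefl _ h3
  refine IsMeagre.mono hsub (isMeagre_iUnion fun m => IsNowhereDense.isMeagre ?_)
  have hcl : IsClosed {y | ∀ n, m ≤ n → y ∉ MGR_W (c (Nat.unpair n).1) (κ n)} := by
    have h2 : {y | ∀ n, m ≤ n → y ∉ MGR_W (c (Nat.unpair n).1) (κ n)} =
        ⋂ (n : ℕ) (_ : m ≤ n), (MGR_W (c (Nat.unpair n).1) (κ n))ᶜ := by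
      ext y
      simp only [Set.mem_ofPred_eq, Set.mem_iInter, Set.mem_compl_iff]
    rw [h2]
    exact isClosed_iInter fun n => isClosed_iInter fun _ => (MGR_clopen _ _).compl.isClosed
  rw [hcl.isNowhereDense_iff, Set.eq_empty_iff_forall_notMem]
  intro y hy
  obtain ⟨L, hL⟩ := exists_cyl isOpen_interior hy
  obtain ⟨a, ha⟩ := hc ((List.range L).map y)
  have hlen : (c a).length = L := by
    rw [ha, List.length_map, List.length_range]
  have hget : ∀ e < L, (c a).getD e false = y e := by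
    intro e he
    rw [ha, List.getD_eq_getElem?_getD, List.getElem?_map, List.getElem?_range he]
    rfl
  have hn : (Nat.unpair (Nat.pair a m)).1 = a := by
    rw [Nat.unpair_pair]
  have hyn : ∀ e < L, (fun e => if e < L then y e else decide (e = L + κ (Nat.pair a m))) e =
      y e := by
    intro e he
    simp only [he, if_true]
  have h2 := interior_subset (hL _ hyn) (Nat.pair a m) (Nat.right_le_pair a m)
  apply h2
  rw [hn]
  refine ⟨fun e he => ?_, fun e he => ?_, ?_⟩
  · rw [hlen] at he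
    rw [hget e he]
    exact hyn e he
  · rw [hlen]
    have e1 : ¬ (L + e < L) := by omega
    have e2 : ¬ (L + e = L + κ (Nat.pair a m)) := by omega
    simp only [e1, if_false, e2, decide_false]
  · rw [hlen]
    have e1 : ¬ (L + κ (Nat.pair a m) < L) := by omega
    simp only [e1, if_false, decide_true]

end Pool.Agent.MM
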