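import Pool.Agent.helper91.MM.SpecB

set_option autoImplicit false

/-!
# MM: row NEM, a trivial condition exists
-/

namespace Pool.Agent.MM

open Pool.Agent.Scheepers Filter Topology Cardinal

/-- NEM -/
theorem NEM : NEM_stmt := by
  classical
  intro S
  have hblock : ∀ N l : ℕ, ∃ r, l < r ∧ ∀ w : ℕ × ℕ, w.1 ≤ N → w.2 ≤ N →
      ∃ e, l ≤ e ∧ e < r ∧ pos e = w := by
    intro N l
    choose g hg1 hg2 using fun w => exists_pos_ge w l
    let Q : Finset (ℕ × ℕ) := Finset.range (N + 1) ×ˢ Finset.range (N + 1)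
    refine ⟨max (l + 1) (Q.sup g + 1), lt_of_lt_of_le (Nat.lt_succ_self l) (le_max_left _ _), ?_⟩
    intro w h1 h2
    refine ⟨g w, hg1 w, ?_, hg2 w⟩
    have hw : w ∈ Q := Finset.mem_product.2 ⟨Finset.mem_range.2 (Nat.lt_succ_of_le h1),
      Finset.mem_range.2 (Nat.lt_succ_of_le h2)⟩
    have := Finset.le_sup (f := g) hw
    exact lt_of_lt_of_le (Nat.lt_succ_of_le this) (le_max_right _ _)
  choose r hr1 hr2 using hblock
  let a : ℕ → ℕ := fun i => Nat.rec 0 (fun i ai => r i ai) i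
  have ha : ∀ i, a (i + 1) = r i (a i) := fun i => rfl
  have hmono : StrictMono a := strictMono_nat_of_lt_succ (fun i => by
    rw [ha]; exact hr1 i (a i))
  have hlarge : ∀ N j, N ≤ j → Lg S N Set.univ (a j) (a (j + 1)) := by
    intro N j hj t _ w h1 h2 hw
    refine ⟨fun e => decide (pos e = w), Set.mem_univ _, ?_, ?_⟩
    · intro e _ _ hpos
      refine decide_eq_false ?_
      intro h
      exact hw (h ▸ hpos)
    · obtain ⟨e, he1, he2, he3⟩ := hr2 j (a j) w (h1.trans hj) (h2.trans hj)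
      exact ⟨e, he1, he2, he3, decide_eq_true he3⟩
  exact ⟨⟨a, fun _ => Set.univ, hmono, fun _ _ _ _ _ => Set.mem_univ _,
    fun N => ⟨N, fun j hj => hlarge N j hj⟩⟩⟩

end Pool.Agent.MM
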